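import Pool.Agent.W398.SG.StmC

/-!
Project SG, part C: the cyclic case.
-/

namespace Pool.Agent.W681.SG

open Pool.Agent.W37.SG Pool.Agent.W398.SG.C Polynomial

section alg

variable (p : ℕ) [Fact p.Prime] (q : ℕ)

/-- the functional -/
noncomputable def l (f : ℤ_[p][X]) : ZMod p :=
  f.sum (fun i a => if q ∣ i then PadicInt.toZMod a else 0)

theorem l_add (f g : ℤ_[p][X]) : l p q (f + g) = l p q f + l p q g := by
  unfold l
  refine Polynomial.sum_add_index _ _ _ ?_ ?_
  · intro i
    simp
  · intro i a b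
    split_ifs
    · rw [map_add]
    · rw [add_zero]

theorem l_zero : l p q 0 = 0 := by
  unfold l
  exact Polynomial.sum_zero_index _

theorem l_monomial (i : ℕ) (a : ℤ_[p]) :
    l p q (monomial i a) = if q ∣ i then PadicInt.toZMod a else 0 := by
  unfold l
  rw [Polynomial.sum_monomial_index]
  simp

theorem l_sum {ι : Type} (s : Finset ι) (f : ι → ℤ_[p][X]) :
    l p q (∑ i ∈ s, f i) = ∑ i ∈ s, l p q (f i) := by
  classical
  induction s using Finset.induction_on with
  | empty => rw [Finset.sum_empty, Finset.sum_empty, l_zero]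
  | insert a s ha ih => rw [Finset.sum_insert ha, Finset.sum_insert ha, l_add, ih]

theorem l_sub (f g : ℤ_[p][X]) : l p q (f - g) = l p q f - l p q g := by
  have h := l_add p q (f - g) g
  rw [sub_add_cancel] at h
  rw [h, add_sub_cancel_right]

/-- the cyclotomic polynomial -/
noncomputable def Ph : ℤ_[p][X] := ∑ i ∈ Finset.range p, X ^ (i * q)

theorem l_Ph_mul (f : ℤ_[p][X]) : l p q (Ph p q * f) = 0 := by
  induction f using Polynomial.induction_on' with
  | add f g hf hg => rw [mul_add, l_add, hf, hg, add_zero]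
  | monomial j a =>
    unfold Ph
    rw [Finset.sum_mul, l_sum]
    have h : ∀ i ∈ Finset.range p, l p q (X ^ (i * q) * monomial j a) =
        if q ∣ j then PadicInt.toZMod a else 0 := by
      intro i _
      rw [X_pow_mul_monomial, l_monomial]
      have h1 : (q ∣ j + i * q) ↔ q ∣ j := Nat.dvd_add_left (Dvd.intro_left i rfl)
      simp only [h1]
    rw [Finset.sum_congr rfl h, Finset.sum_const, Finset.card_range, nsmul_eq_mul,
      CharP.cast_eq_zero, zero_mul]

theorem l_X_mul (n : ℕ) (f : ℤ_[p][X]) : l p q (X ^ (q * n) * f) = l p q f := by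
  induction f using Polynomial.induction_on' with
  | add f g hf hg => rw [mul_add, l_add, l_add, hf, hg]
  | monomial j a =>
    rw [X_pow_mul_monomial, l_monomial, l_monomial]
    have h1 : (q ∣ j + q * n) ↔ q ∣ j := Nat.dvd_add_left (Dvd.intro n rfl)
    simp only [h1]

variable {q}

theorem Ph_eq : Ph p q = X ^ ((p - 1) * q) + ∑ i ∈ Finset.range (p - 1), X ^ (i * q) := by
  unfold Ph
  have h : Finset.range p = Finset.range ((p - 1) + 1) := by
    have := (Fact.out : p.Prime).one_lt
    congr 1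
    omega
  rw [h, Finset.sum_range_succ, add_comm]

theorem Ph_low (hq : 0 < q) :
    (∑ i ∈ Finset.range (p - 1), X ^ (i * q) : ℤ_[p][X]).degree < (((p - 1) * q : ℕ) : WithBot ℕ) := by
  refine lt_of_le_of_lt (Polynomial.degree_sum_le _ _) ?_
  rw [Finset.sup_lt_iff (WithBot.bot_lt_coe _)]
  intro i hi
  rw [degree_X_pow]
  have h1 := Finset.mem_range.mp hi
  exact_mod_cast Nat.mul_lt_mul_of_pos_right h1 hq

theorem Ph_monic (hq : 0 < q) : (Ph p q).Monic := by
  rw [Ph_eq]
  exact Polynomial.monic_X_pow_add (Ph_low p hq)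

theorem Ph_deg (hq : 0 < q) : (Ph p q).natDegree = (p - 1) * q := by
  rw [Ph_eq]
  refine Polynomial.natDegree_eq_of_degree_eq_some ?_
  rw [Polynomial.degree_add_eq_left_of_degree_lt, degree_X_pow]
  rw [degree_X_pow]
  exact Ph_low p hq

theorem mod_deg (hq : 0 < q) (f : ℤ_[p][X]) : (f %ₘ Ph p q).natDegree < (p - 1) * q := by
  rw [← Ph_deg p hq]
  refine Polynomial.natDegree_modByMonic_lt f (Ph_monic p hq) ?_
  intro h
  have h1 := Ph_deg p hq
  rw [h, natDegree_one] at h1
  have h2 : 0 < (p - 1) * q := Nat.mul_pos (by have := (Fact.out : p.Prime).one_lt; omega) hq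
  omega

end alg

theorem main : S_CYC1 → S_CYC2 := by
  intro hC p _ P T _ _ _ _ ρ hL hU hρ hP hcyc hnt
  have hp : p.Prime := Fact.out
  obtain ⟨g, hg⟩ := hcyc.exists_generator
  have hord : orderOf g = Nat.card P := orderOf_eq_card_of_forall_mem_zpowers hg
  obtain ⟨n, hn⟩ := IsPGroup.iff_card.mp hP
  have hn0 : n ≠ 0 := by
    intro h
    rw [h, pow_zero] at hn
    have h2 : 1 < Nat.card P := Finite.one_lt_card
    omega
  obtain ⟨e, rfl⟩ := Nat.exists_eq_succ_of_ne_zero hn0
  have hord' : orderOf g = p ^ (e + 1) := by rw [hord, hn]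
  obtain ⟨h1, v, hsurj, hinj⟩ := hC p P T ρ hL hU hρ g e hg hord'
  have hq : 0 < p ^ e := pow_pos hp.pos e
  have hN : 0 < (p - 1) * p ^ e := Nat.mul_pos (by have := hp.one_lt; omega) hq
  set q := p ^ e with hqdef
  have hPh : aeval (ρ g) (Ph p q) = 0 := by
    unfold Ph
    rw [map_sum]
    rw [← h1]
    refine Finset.sum_congr rfl (fun i _ => ?_)
    rw [map_pow, aeval_X]
  have hmod : ∀ f : ℤ_[p][X], aeval (ρ g) (f %ₘ Ph p q) v = aeval (ρ g) f v := by
    intro f
    have h2 := Polynomial.modByMonic_add_div f (Ph p q)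
    have h3 : aeval (ρ g) f = aeval (ρ g) (f %ₘ Ph p q) := by
      conv_lhs => rw [← h2]
      rw [map_add, map_mul, hPh, zero_mul, add_zero]
    rw [h3]
  have hker : ∀ f : ℤ_[p][X], aeval (ρ g) f v = 0 → l p q f = 0 := by
    intro f hf
    have h2 : f %ₘ Ph p q = 0 := by
      refine hinj _ (mod_deg p hq f) ?_
      rw [hmod, hf]
    have h3 := Polynomial.modByMonic_add_div f (Ph p q)
    rw [h2, zero_add] at h3
    rw [← h3]
    exact l_Ph_mul p q _
  have hl : ∀ f f' : ℤ_[p][X], aeval (ρ g) f v = aeval (ρ g) f' v → l p q f = l p q f' := by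
    intro f f' h
    have h2 := hker (f - f') (by rw [map_sub, LinearMap.sub_apply, h, sub_self])
    rw [l_sub] at h2
    exact sub_eq_zero.mp h2
  choose F hF using hsurj
  have hlam : ∀ (f : ℤ_[p][X]) (x : T), aeval (ρ g) f v = x → l p q (F x) = l p q f := by
    intro f x h
    exact hl _ _ (by rw [← hF, h])
  have hpow : ∀ (i : ℕ) (f : ℤ_[p][X]), ρ (g ^ i) (aeval (ρ g) f v) =
      aeval (ρ g) (X ^ i * f) v := by
    intro i f
    rw [map_pow, map_mul, map_pow, aeval_X]
    rfl
  have hcard : Nat.card (Subgroup.zpowers (g ^ q)) = p := by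
    rw [Nat.card_zpowers, orderOf_pow_of_dvd hq.ne', hord', hqdef, pow_succ,
      Nat.mul_div_cancel_left _ (pow_pos hp.pos e)]
    rw [hord', hqdef, pow_succ]
    exact Dvd.intro _ rfl
  have hindex : (Subgroup.zpowers (g ^ q)).index = q := by
    have h2 := Subgroup.card_mul_index (Subgroup.zpowers (g ^ q))
    rw [hcard, hn, Nat.succ_eq_add_one, pow_succ, mul_comm (p ^ e) p] at h2
    exact Nat.eq_of_mul_eq_mul_left hp.pos h2
  refine ⟨Subgroup.zpowers (g ^ q), ⊤, fun x => l p q (F x), v, fun _ _ _ => trivial,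
    ⟨0, fun _ => trivial⟩, ?_, ?_, trivial, ?_, ?_, ?_⟩
  · intro x _ y _
    show l p q (F (x + y)) = l p q (F x) + l p q (F y)
    rw [← l_add]
    refine hlam _ _ ?_
    rw [map_add, LinearMap.add_apply, ← hF, ← hF]
  · intro h hh x _
    show l p q (F (ρ h x)) = l p q (F x)
    rw [← mem_powers_iff_mem_zpowers] at hh
    obtain ⟨k, hk⟩ := hh
    have hk' : g ^ (q * k) = h := by
      rw [← hk, pow_mul]
    rw [← l_X_mul p q k (F x)]
    refine hlam _ _ ?_
    rw [← hpow, hk', ← hF]
  · show l p q (F v) = 1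
    rw [hlam 1 v (by rw [map_one]; rfl)]
    have h2 : (1 : ℤ_[p][X]) = monomial 0 1 := by rw [monomial_zero_left, C_1]
    rw [h2, l_monomial, if_pos (dvd_zero _), map_one]
  · intro x hx
    show l p q (F (ρ x v)) = 0
    have hx' := hg x
    rw [← mem_powers_iff_mem_zpowers] at hx'
    obtain ⟨i, hi⟩ := hx'
    have hi' : g ^ i = x := hi
    have hqi : ¬ q ∣ i := by
      rintro ⟨k, rfl⟩
      refine hx ?_
      rw [← hi', pow_mul]
      exact Subgroup.npow_mem_zpowers _ _
    rw [hlam (X ^ i) (ρ x v)]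
    · rw [← monomial_one_right_eq_X_pow, l_monomial, if_neg hqi]
    · have h2 := hpow i 1
      rw [mul_one, map_one, hi'] at h2
      rw [← h2]
      rfl
  · rw [hindex]
    have h2 : Function.Bijective (
      (LinearMap.applyₗ v).comp ((aeval (ρ g)).toLinearMap.comp
        ((degreeLT ℤ_[p] ((p - 1) * q)).subtype))) := by
      constructor
      · rw [← LinearMap.ker_eq_bot, LinearMap.ker_eq_bot']
        intro f hf
        have h3 : aeval (ρ g) (f : ℤ_[p][X]) v = 0 := hf
        have h4 : (f : ℤ_[p][X]).natDegree < (p - 1) * q := by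
          by_cases h5 : (f : ℤ_[p][X]) = 0
          · rw [h5, natDegree_zero]; exact hN
          · exact (Polynomial.natDegree_lt_iff_degree_lt h5).mpr (mem_degreeLT.mp f.2)
        exact Subtype.ext (hinj _ h4 h3)
      · intro x
        refine ⟨⟨(F x) %ₘ Ph p q, ?_⟩, ?_⟩
        · rw [mem_degreeLT]
          by_cases h5 : (F x) %ₘ Ph p q = 0
          · rw [h5, degree_zero]
            exact WithBot.bot_lt_coe _
          · exact (Polynomial.natDegree_lt_iff_degree_lt h5).mp (mod_deg p hq _)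
        · show aeval (ρ g) ((F x) %ₘ Ph p q) v = x
          rw [hmod, ← hF]
    have h3 := (LinearEquiv.ofBijective _ h2).finrank_eq
    rw [← h3, (degreeLTEquiv ℤ_[p] ((p - 1) * q)).finrank_eq, Module.finrank_fin_fun]

end Pool.Agent.W681.SG
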